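import Pool.Agent.H87.EBK.Stmts3

/-! Board ebt, row DNLW: third edges with given valuation in an interval (copy of row DNL of ebs). -/

set_option autoImplicit false

namespace Pool.EBK

theorem dnlw_third {a b c : ℚ} (h : Third a b c) : Third b a c := ⟨h.1, h.2.2, h.2.1⟩

theorem dnlw_rich {a b : ℚ} (h : WRich a b) : WRich b a := by
  obtain ⟨h0, h1, c, h2, h3, h4⟩ := h
  exact ⟨h1, h0, c, dnlw_third h2, h4, h3⟩

theorem dnlw_aux (hSTA : STA) (hDNA : DNAW) (a b c0 y1 y2 : ℚ) (hab : a ≤ b) (hR : WRich a b)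
    (h0 : Third a b c0) (hca : v c0 < v a) (hcb : v c0 < v b) (hy1 : 0 < y1) (hy : y1 < y2) :
    ∃ c, Third a b c ∧ v c = v c0 ∧ y1 < c ∧ c < y2 := by
  have ha : 0 < a := hR.1
  have hb : 0 < b := hR.2.1
  have hc0 : 0 < c0 := h0.1
  have hy2 : 0 < y2 := lt_trans hy1 hy
  by_cases h1 : y2 ≤ c0
  · exact hDNA a b c0 y1 y2 (v c0) hab hR (Or.inl ⟨hca, hcb⟩) h0 rfl hy1 hy h1
  · by_cases h2 : y1 < c0
    · exact ⟨c0, h0, rfl, h2, not_le.1 h1⟩
    · have h3 : c0 ≤ y1 := not_lt.1 h2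
      obtain ⟨h4, h5⟩ := hSTA a b c0 ha hb h0
      have hab0 : 0 < a * b := mul_pos ha hb
      have g1 : 0 < a * b / y2 := by positivity
      have g2 : a * b / y2 < a * b / y1 := div_lt_div_of_pos_left hab0 hy1 hy
      have g3 : a * b / y1 ≤ a * b / c0 := div_le_div_of_nonneg_left hab0.le hc0 h3
      obtain ⟨c', h6, h7, h8, h9⟩ := hDNA a b (a * b / c0) (a * b / y2) (a * b / y1)
        (v a + v b - v c0) hab hR (Or.inr ⟨by omega, by omega⟩) h4 h5 g1 g2 g3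
      obtain ⟨h10, h11⟩ := hSTA a b c' ha hb h6
      have hc' : 0 < c' := h6.1
      refine ⟨a * b / c', h10, by rw [h11, h7]; ring, ?_, ?_⟩
      · rw [lt_div_iff₀ hc']
        rw [lt_div_iff₀ hy1] at h9
        linarith
      · rw [div_lt_iff₀ hc']
        rw [div_lt_iff₀ hy2] at h8
        linarith

theorem dnlw (hSTA : STA) (hDNA : DNAW) : DNLW := by
  intro a b c0 y1 y2 hR h0 hca hcb hy1 hy
  rcases le_total a b with hab | hab
  · exact dnlw_aux hSTA hDNA a b c0 y1 y2 hab hR h0 hca hcb hy1 hy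
  · obtain ⟨c, h1, h2⟩ :=
      dnlw_aux hSTA hDNA b a c0 y1 y2 hab (dnlw_rich hR) (dnlw_third h0) hcb hca hy1 hy
    exact ⟨c, dnlw_third h1, h2⟩

end Pool.EBK
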